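import Pool.Agent.H63.Bn.Defs

/-! Valid broadcasts (dominating, one ball or no isolated ball), merging of overlapping balls and
the characterisation of maximal boundary independent broadcasts. -/

namespace Pool.Agent.H63.Bn

open Finset

variable {V : Type*} [Fintype V] {G : SimpleGraph V}

omit [Fintype V] in
lemma between (hG : G.Connected) (u v : V) {k : ℕ} (hk : k ≤ G.dist u v) :
    ∃ x, G.dist u x = k ∧ G.dist x v + k = G.dist u v := by
  obtain ⟨p, hp⟩ := hG.exists_walk_length_eq_dist u v
  refine ⟨p.getVert k, ?_⟩
  have h1 : G.dist u (p.getVert k) ≤ k := by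
    refine (SimpleGraph.dist_le (p.take k)).trans ?_
    rw [SimpleGraph.Walk.take_length]
    exact min_le_left _ _
  have h2 : G.dist (p.getVert k) v ≤ G.dist u v - k := by
    refine (SimpleGraph.dist_le (p.drop k)).trans ?_
    rw [SimpleGraph.Walk.drop_length, hp]
  have h3 := hG.dist_triangle (u := u) (v := p.getVert k) (w := v)
  omega

/-- Dominating broadcasts with a single ball or without isolated balls. -/
def Valid (G : SimpleGraph V) (f : V → ℕ) : Prop :=
  (∀ x, ∃ v, 0 < f v ∧ G.dist x v ≤ f v) ∧
    ((∃ v, ∀ u, 0 < f u → u = v) ∨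
      ∀ v, 0 < f v → ∃ u, u ≠ v ∧ 0 < f u ∧ G.dist v u ≤ f v + f u)

/-- Balls overlap at most in their boundaries. -/
def Sep (G : SimpleGraph V) (f : V → ℕ) : Prop :=
  ∀ u v, u ≠ v → 0 < f u → 0 < f v → f u + f v ≤ G.dist u v

omit [Fintype V] in
lemma dist_le_ecc [Fintype V] (u v : V) : G.dist u v ≤ ecc G u :=
  Finset.le_sup (f := fun u' => G.dist u u') (Finset.mem_univ v)

lemma ecc_le_diam (u : V) : ecc G u ≤ diam G :=
  Finset.le_sup (f := fun u' => ecc G u') (Finset.mem_univ u)

lemma isBroadcast_of_card {f : V → ℕ} (hc : 2 ≤ Fintype.card V) (h : ∀ v, f v ≤ ecc G v) :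
    IsBroadcast G f := by
  refine ⟨fun h1 => by omega, fun _ v => ⟨(h v).trans (ecc_le_diam v), h v⟩⟩

lemma bnIndep_iff (hG : G.Connected) (f : V → ℕ) :
    BnIndep G f ↔ IsBroadcast G f ∧ Sep G f := by
  constructor
  · rintro ⟨hb, h⟩
    refine ⟨hb, fun u v huv hu hv => ?_⟩
    by_contra hlt
    push Not at hlt
    rcases le_or_gt (G.dist u v) (f v) with h1 | h1
    · have := h u u v huv ⟨hu, by simp⟩ ⟨hv, h1⟩ u hu
      simp at this
      omega
    · obtain ⟨x, hx1, hx2⟩ := between hG v u (k := f v) (by rw [SimpleGraph.dist_comm]; omega)
      have e1 : G.dist v u = G.dist u v := SimpleGraph.dist_comm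
      have e2 : G.dist x v = G.dist v x := SimpleGraph.dist_comm
      have := h x u v huv ⟨hu, by omega⟩ ⟨hv, by omega⟩ u hu
      omega
  · rintro ⟨hb, h⟩
    refine ⟨hb, fun x v w hvw hv hw u hu => ?_⟩
    by_contra hlt
    push Not at hlt
    have key : ∀ z, z ≠ u → Hears G f x z → False := by
      intro z hz hh
      have h1 := h u z (Ne.symm hz) hu hh.1
      have h2 := hG.dist_triangle (u := u) (v := x) (w := z)
      have e1 : G.dist u x = G.dist x u := SimpleGraph.dist_comm
      have h3 := hh.2
      omega
    by_cases hvu : v = u
    · exact key w (by rw [← hvu]; exact hvw.symm) hw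
    · exact key v hvu hv

/-- A maximal boundary independent broadcast is valid and separated. -/
lemma valid_of_maxBn (hG : G.Connected) {f : V → ℕ} (h : MaxBn G f) : Valid G f ∧ Sep G f := by
  classical
  have hb := (bnIndep_iff hG f).1 h.1
  refine ⟨?_, hb.2⟩
  have hne : Nonempty V := hG.nonempty
  rcases Nat.lt_or_ge (Fintype.card V) 2 with hc | hc
  · have hc1 : Fintype.card V = 1 := by
      have := Fintype.card_pos (α := V)
      omega
    have hf := hb.1.1 hc1
    have hs : Subsingleton V := Fintype.card_le_one_iff_subsingleton.1 (by omega)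
    obtain ⟨v⟩ := hne
    refine ⟨fun x => ⟨v, by rw [hf v]; exact one_pos, ?_⟩, Or.inl ⟨v, fun u _ => hs.elim _ _⟩⟩
    rw [hs.elim x v]
    simp
  have hdom : ∀ x, ∃ v, 0 < f v ∧ G.dist x v ≤ f v := by
    intro x
    by_contra hno
    push Not at hno
    have hx0 : f x = 0 := by
      by_contra h0
      have := hno x (Nat.pos_of_ne_zero h0)
      simp at this
    have hnt : Nontrivial V := Fintype.one_lt_card_iff_nontrivial.1 hc
    obtain ⟨y, hy⟩ := exists_ne x
    have hecc : 1 ≤ ecc G x := by
      have h1 : 0 < G.dist x y := hG.pos_dist_of_ne hy.symm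
      have h2 := dist_le_ecc (G := G) x y
      omega
    have hg : BnIndep G (Function.update f x 1) := by
      rw [bnIndep_iff hG]
      refine ⟨isBroadcast_of_card hc fun v => ?_, fun u v huv hu hv => ?_⟩
      · by_cases hv : v = x
        · subst hv; simpa using hecc
        · rw [Function.update_of_ne hv]
          exact (hb.1.2 hc v).2
      · by_cases hux : u = x
        · subst hux
          have hvu : v ≠ u := huv.symm
          rw [Function.update_of_ne hvu] at hv ⊢
          have := hno v hv
          simp only [Function.update_self]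
          omega
        · by_cases hvx : v = x
          · subst hvx
            rw [Function.update_of_ne hux] at hu ⊢
            have := hno u hu
            have e1 : G.dist u v = G.dist v u := SimpleGraph.dist_comm
            simp only [Function.update_self]
            omega
          · rw [Function.update_of_ne hux] at hu ⊢
            rw [Function.update_of_ne hvx] at hv ⊢
            exact hb.2 u v huv hu hv
    have hle : ∀ v, f v ≤ Function.update f x 1 v := by
      intro v
      by_cases hv : v = x
      · subst hv; simp [hx0]
      · rw [Function.update_of_ne hv]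
    have := congrFun (h.2 _ hg hle) x
    simp [hx0] at this
  refine ⟨hdom, ?_⟩
  by_cases hs : ∃ v, ∀ u, 0 < f u → u = v
  · exact Or.inl hs
  right
  intro v hv
  by_contra hno
  push Not at hno hs
  obtain ⟨u, hu, huv⟩ := hs v
  have hgt := hno u huv hu
  have hg : BnIndep G (Function.update f v (f v + 1)) := by
    rw [bnIndep_iff hG]
    refine ⟨isBroadcast_of_card hc fun z => ?_, fun z w hzw hz hw => ?_⟩
    · by_cases hzv : z = v
      · subst hzv
        have h2 := dist_le_ecc (G := G) z u
        simp only [Function.update_self]
        omega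
      · rw [Function.update_of_ne hzv]
        exact (hb.1.2 hc z).2
    · by_cases hzv : z = v
      · subst hzv
        have hwz : w ≠ z := hzw.symm
        rw [Function.update_of_ne hwz] at hw ⊢
        have := hno w hwz hw
        simp only [Function.update_self]
        omega
      · by_cases hwv : w = v
        · subst hwv
          rw [Function.update_of_ne hzv] at hz ⊢
          have := hno z hzv hz
          have e1 : G.dist z w = G.dist w z := SimpleGraph.dist_comm
          simp only [Function.update_self]
          omega
        · rw [Function.update_of_ne hzv] at hz ⊢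
          rw [Function.update_of_ne hwv] at hw ⊢
          exact hb.2 z w hzw hz hw
  have hle : ∀ z, f z ≤ Function.update f v (f v + 1) z := by
    intro z
    by_cases hz : z = v
    · subst hz; simp
    · rw [Function.update_of_ne hz]
  have := congrFun (h.2 _ hg hle) v
  simp at this

/-- A valid separated broadcast can be replaced by a maximal boundary independent broadcast
without increasing the cost. -/
lemma exists_maxBn_of_sep (hG : G.Connected) {f : V → ℕ} (hv : Valid G f) (hs : Sep G f) :
    ∃ g, MaxBn G g ∧ cost g ≤ cost f := by
  classical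
  have hne : Nonempty V := hG.nonempty
  rcases Nat.lt_or_ge (Fintype.card V) 2 with hc | hc
  · have hc1 : Fintype.card V = 1 := by
      have := Fintype.card_pos (α := V)
      omega
    have hsub : Subsingleton V := Fintype.card_le_one_iff_subsingleton.1 (by omega)
    refine ⟨fun _ => 1, ⟨?_, ?_⟩, ?_⟩
    · rw [bnIndep_iff hG]
      exact ⟨⟨fun _ _ => rfl, fun h => by omega⟩, fun u v huv => absurd (hsub.elim u v) huv⟩
    · intro g hg _
      funext v
      exact hg.1.1 hc1 v
    · refine Finset.sum_le_sum fun v _ => ?_
      obtain ⟨w, hw, _⟩ := hv.1 v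
      rw [hsub.elim v w]
      exact hw
  have hnt : Nontrivial V := Fintype.one_lt_card_iff_nontrivial.1 hc
  by_cases hsingle : ∃ v, ∀ u, 0 < f u → u = v
  · obtain ⟨v, hv1⟩ := hsingle
    have hdom : ∀ x, G.dist v x ≤ f v := by
      intro x
      obtain ⟨w, hw, hd⟩ := hv.1 x
      rw [hv1 w hw, SimpleGraph.dist_comm] at hd
      exact hd
    have hecc : ecc G v ≤ f v := Finset.sup_le fun x _ => hdom x
    obtain ⟨y, hy⟩ := exists_ne v
    have hecc1 : 0 < ecc G v :=
      lt_of_lt_of_le (hG.pos_dist_of_ne hy.symm) (dist_le_ecc v y)
    refine ⟨Function.update (fun _ => 0) v (ecc G v), ⟨?_, ?_⟩, ?_⟩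
    · rw [bnIndep_iff hG]
      refine ⟨isBroadcast_of_card hc fun z => ?_, fun z w hzw hz hw => ?_⟩
      · by_cases hz : z = v
        · subst hz; simp
        · rw [Function.update_of_ne hz]; exact Nat.zero_le _
      · have h1 : z = v := by
          by_contra h1
          rw [Function.update_of_ne h1] at hz
          exact absurd hz (lt_irrefl 0)
        have h2 : w = v := by
          by_contra h2
          rw [Function.update_of_ne h2] at hw
          exact absurd hw (lt_irrefl 0)
        exact absurd (h1.trans h2.symm) hzw
    · intro g hg hle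
      have hg' := (bnIndep_iff hG g).1 hg
      have hgv : g v = ecc G v := by
        have h1 := hle v
        simp only [Function.update_self] at h1
        have h2 := (hg'.1.2 hc v).2
        omega
      funext z
      by_cases hz : z = v
      · subst hz; simpa using hgv
      · rw [Function.update_of_ne hz]
        by_contra h0
        have h1 := hg'.2 v z (Ne.symm hz) (by omega) (Nat.pos_of_ne_zero h0)
        have h2 := dist_le_ecc (G := G) v z
        have h3 : 0 < g z := Nat.pos_of_ne_zero h0
        omega
    · unfold cost
      rw [Finset.sum_update_of_mem (Finset.mem_univ v)]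
      simp only [Finset.sum_const_zero, add_zero]
      exact hecc.trans (Finset.single_le_sum (f := f) (fun _ _ => Nat.zero_le _)
        (Finset.mem_univ v))
  · have htouch := hv.2.resolve_left hsingle
    refine ⟨f, ⟨?_, ?_⟩, le_refl _⟩
    · rw [bnIndep_iff hG]
      refine ⟨isBroadcast_of_card hc fun z => ?_, hs⟩
      rcases Nat.eq_zero_or_pos (f z) with h0 | h0
      · rw [h0]; exact Nat.zero_le _
      · obtain ⟨u, huz, hu, _⟩ := htouch z h0
        have h1 := hs z u huz.symm h0 hu
        have h2 := dist_le_ecc (G := G) z u
        omega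
    · intro g hg hle
      have hg' := (bnIndep_iff hG g).1 hg
      by_contra hne'
      have : ∃ v, f v < g v := by
        by_contra hno
        push Not at hno
        exact hne' (funext fun v => le_antisymm (hno v) (hle v))
      obtain ⟨v, hlt⟩ := this
      rcases Nat.eq_zero_or_pos (f v) with h0 | h0
      · obtain ⟨w, hw, hd⟩ := hv.1 v
        have hvw : v ≠ w := by rintro rfl; omega
        have h1 := hg'.2 v w hvw (by omega) (lt_of_lt_of_le hw (hle w))
        have h2 := hle w
        omega
      · obtain ⟨u, huv, hu, hd⟩ := htouch v h0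
        have h1 := hg'.2 v u huv.symm (by omega) (lt_of_lt_of_le hu (hle u))
        have h2 := hle u
        omega

end Pool.Agent.H63.Bn
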