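import Mathlib

/-! Boundary independent broadcasts on finite connected graphs (definitions of the problem file). -/

namespace Pool.Agent.H63.Bn

open Finset

variable {V : Type*} [Fintype V]

/-- The eccentricity `e(v)` of the vertex `v`. -/
noncomputable def ecc (G : SimpleGraph V) (v : V) : ℕ := univ.sup fun u => G.dist v u

/-- The diameter of the graph. -/
noncomputable def diam (G : SimpleGraph V) : ℕ := univ.sup fun v => ecc G v

/-- A broadcast: values at most the diameter and at most the eccentricity; on a graph with a
single vertex the value is `1`. -/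
def IsBroadcast (G : SimpleGraph V) (f : V → ℕ) : Prop :=
  (Fintype.card V = 1 → ∀ v, f v = 1) ∧
    (2 ≤ Fintype.card V → ∀ v, f v ≤ diam G ∧ f v ≤ ecc G v)

/-- The cost of a broadcast. -/
def cost (f : V → ℕ) : ℕ := ∑ v, f v

omit [Fintype V] in
/-- The vertex `u` hears the broadcast `f` from the broadcasting vertex `v`. -/
def Hears (G : SimpleGraph V) (f : V → ℕ) (u v : V) : Prop := 0 < f v ∧ G.dist u v ≤ f v

/-- Boundary independent broadcasts: every vertex `x` that hears from two different broadcasting
vertices has distance at least `f u` from every broadcasting vertex `u`. -/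
def BnIndep (G : SimpleGraph V) (f : V → ℕ) : Prop :=
  IsBroadcast G f ∧ ∀ x v w, v ≠ w → Hears G f x v → Hears G f x w →
    ∀ u, 0 < f u → f u ≤ G.dist x u

/-- Maximal boundary independent broadcasts. -/
def MaxBn (G : SimpleGraph V) (f : V → ℕ) : Prop :=
  BnIndep G f ∧ ∀ g, BnIndep G g → (∀ v, f v ≤ g v) → g = f

/-- The lower boundary independent broadcast number: the minimum cost of a maximal boundary
independent broadcast. -/
noncomputable def ibn (G : SimpleGraph V) : ℕ := sInf {c | ∃ f, MaxBn G f ∧ cost f = c}

end Pool.Agent.H63.Bn
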