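import Pool.Agent.H63.Bn.Tree

/-! The lower boundary independent broadcast number of a connected graph is the minimum over its
spanning trees. -/

namespace Pool.Agent.H63.Bn

open Finset

variable {V : Type*} [Fintype V] {G : SimpleGraph V}

lemma exists_maxBn_of_valid (hG : G.Connected) {f : V → ℕ} (hf : Valid G f) :
    ∃ g, MaxBn G g ∧ cost g ≤ cost f := by
  obtain ⟨g, hg1, hg2, hg3⟩ := exists_sep hG f hf
  obtain ⟨h, hh1, hh2⟩ := exists_maxBn_of_sep hG hg1 hg2
  exact ⟨h, hh1, hh2.trans hg3⟩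

lemma ibn_le_of_valid (hG : G.Connected) {f : V → ℕ} (hf : Valid G f) : ibn G ≤ cost f := by
  obtain ⟨g, hg1, hg2⟩ := exists_maxBn_of_valid hG hf
  have hmem : cost g ∈ {c | ∃ f, MaxBn G f ∧ cost f = c} := ⟨g, hg1, rfl⟩
  exact (Nat.sInf_le hmem).trans hg2

omit [Fintype V] in
lemma valid_one (hG : G.Connected) : Valid G (fun _ : V => 1) := by
  have hdom : ∀ x : V, ∃ v : V, 0 < 1 ∧ G.dist x v ≤ 1 := fun x => ⟨x, Nat.one_pos, by simp⟩
  refine ⟨hdom, ?_⟩
  by_cases h : ∃ v : V, ∀ u, u = v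
  · obtain ⟨v, hv⟩ := h
    exact Or.inl ⟨v, fun u _ => hv u⟩
  · right
    intro v _
    push Not at h
    obtain ⟨u, hu⟩ := h v
    have h1 : 0 < G.dist v u := hG.pos_dist_of_ne hu.symm
    obtain ⟨x, hx1, -⟩ := between hG v u (k := 1) h1
    refine ⟨x, ?_, Nat.one_pos, by omega⟩
    rintro rfl
    simp at hx1

/-- The minimum in the definition of the number is attained. -/
theorem ibn_attained (hG : G.Connected) : ∃ f, MaxBn G f ∧ cost f = ibn G := by
  obtain ⟨g, hg1, -⟩ := exists_maxBn_of_valid hG (valid_one hG)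
  exact Nat.sInf_mem (s := {c | ∃ f, MaxBn G f ∧ cost f = c}) ⟨cost g, g, hg1, rfl⟩

omit [Fintype V] in
lemma valid_mono {T : SimpleGraph V} (hT : T.Connected) (hle : T ≤ G) {f : V → ℕ}
    (hf : Valid T f) : Valid G f := by
  have hd : ∀ u v, G.dist u v ≤ T.dist u v := fun u v =>
    SimpleGraph.Reachable.dist_anti hle (hT.preconnected u v)
  refine ⟨fun x => ?_, ?_⟩
  · obtain ⟨v, hv, h⟩ := hf.1 x
    exact ⟨v, hv, (hd x v).trans h⟩
  · rcases hf.2 with h | h
    · exact Or.inl h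
    · right
      intro v hv
      obtain ⟨u, hu1, hu2, hu3⟩ := h v hv
      exact ⟨u, hu1, hu2, (hd v u).trans hu3⟩

theorem ibn_le_tree (hG : G.Connected) {T : SimpleGraph V} (hle : T ≤ G) (hT : T.IsTree) :
    ibn G ≤ ibn T := by
  obtain ⟨f, hf1, hf2⟩ := ibn_attained hT.connected
  rw [← hf2]
  exact ibn_le_of_valid hG (valid_mono hT.connected hle (valid_of_maxBn hT.connected hf1).1)

theorem exists_tree_ibn (hG : G.Connected) :
    ∃ T : SimpleGraph V, T ≤ G ∧ T.IsTree ∧ ibn T = ibn G := by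
  obtain ⟨f, hf1, hf2⟩ := ibn_attained hG
  obtain ⟨hv, hs⟩ := valid_of_maxBn hG hf1
  obtain ⟨T, hT1, hT2, hT3⟩ := exists_tree hG hv hs
  refine ⟨T, hT1, hT2, le_antisymm ?_ (ibn_le_tree hG hT1 hT2)⟩
  rw [← hf2]
  exact ibn_le_of_valid hT2.connected hT3

end Pool.Agent.H63.Bn
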