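import Pool.Agent.H63.Bn.Core

/-! Two overlapping balls of radii `a` and `b` can be merged into one ball of radius `a + b`, in
such a way that the broadcast stays valid. -/

namespace Pool.Agent.H63.Bn

open Finset

variable {V : Type*} [Fintype V] {G : SimpleGraph V}

open Classical in
/-- The radius that the vertex `x` keeps after `u` and `v` have been switched off. -/
noncomputable def off (f : V → ℕ) (u v x : V) : ℕ := if x = u ∨ x = v then 0 else f x

open Classical in
/-- The merged broadcast. -/
noncomputable def merge (f : V → ℕ) (u v w x : V) : ℕ :=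
  off f u v x + if x = w then f u + f v else 0

omit [Fintype V] in
lemma off_of_ne {f : V → ℕ} {u v x : V} (hu : x ≠ u) (hv : x ≠ v) : off f u v x = f x := by
  simp [off, hu, hv]

omit [Fintype V] in
lemma off_pos {f : V → ℕ} {u v x : V} (h : 0 < off f u v x) : x ≠ u ∧ x ≠ v ∧ 0 < f x := by
  unfold off at h
  split_ifs at h with h1
  · exact absurd h (lt_irrefl 0)
  · push Not at h1
    exact ⟨h1.1, h1.2, h⟩

omit [Fintype V] in
lemma merge_self (f : V → ℕ) (u v w : V) : merge f u v w w = off f u v w + (f u + f v) := by
  simp [merge]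

omit [Fintype V] in
lemma merge_of_ne {f : V → ℕ} {u v w x : V} (h : x ≠ w) : merge f u v w x = off f u v x := by
  simp [merge, h]

lemma cost_merge (f : V → ℕ) {u v : V} (huv : u ≠ v) (w : V) :
    cost (merge f u v w) = cost f := by
  classical
  unfold cost
  have h1 : ∀ x, f x = off f u v x + ((if x = u then f u else 0) + (if x = v then f v else 0)) := by
    intro x
    unfold off
    by_cases hu : x = u
    · subst hu; simp [huv]
    · by_cases hv : x = v
      · subst hv; simp [huv.symm]
      · simp [hu, hv]
  rw [Finset.sum_congr rfl fun x _ => h1 x]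
  unfold merge
  simp only [Finset.sum_add_distrib, Finset.sum_ite_eq', Finset.mem_univ, if_true]

open Classical in
lemma centers_merge {f : V → ℕ} {u v : V} (huv : u ≠ v) (hu : 0 < f u) (hv : 0 < f v) (w : V) :
    (univ.filter fun x => 0 < merge f u v w x).card < (univ.filter fun x => 0 < f x).card := by
  have hsub : (univ.filter fun x => 0 < merge f u v w x) ⊆
      insert w (((univ.filter fun x => 0 < f x).erase u).erase v) := by
    intro x hx
    simp only [Finset.mem_filter, Finset.mem_univ, true_and] at hx
    by_cases hxw : x = w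
    · exact Finset.mem_insert.2 (Or.inl hxw)
    · rw [merge_of_ne hxw] at hx
      obtain ⟨h1, h2, h3⟩ := off_pos hx
      simp [h1, h2, h3]
  have h1 : u ∈ univ.filter fun x => 0 < f x := by simp [hu]
  have h2 : v ∈ (univ.filter fun x => 0 < f x).erase u := by simp [hv, huv.symm]
  have h3 := Finset.card_le_card hsub
  have h4 := Finset.card_insert_le w (((univ.filter fun x => 0 < f x).erase u).erase v)
  have h5 := Finset.card_erase_add_one h1
  have h6 := Finset.card_erase_add_one h2
  omega

omit [Fintype V] in
lemma merge_valid (hG : G.Connected) {f : V → ℕ} (hf : Valid G f) {u v : V} (huv : u ≠ v)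
    (hu : 0 < f u) (hv : 0 < f v) {w : V}
    (hcu : ∀ x, G.dist u x ≤ f u → G.dist w x ≤ f u + f v)
    (hcv : ∀ x, G.dist v x ≤ f v → G.dist w x ≤ f u + f v)
    (hw : (∀ z, z ≠ u → z ≠ v → 0 < f z → z = w) ∨
      ∃ z, z ≠ u ∧ z ≠ v ∧ z ≠ w ∧ 0 < f z ∧ G.dist w z ≤ f u + f v + off f u v w + f z) :
    Valid G (merge f u v w) := by
  have hgw : f u + f v ≤ merge f u v w w := by rw [merge_self]; omega
  have hle : ∀ c, c ≠ u → c ≠ v → f c ≤ merge f u v w c := by
    intro c h1 h2
    by_cases hc : c = w
    · subst hc; rw [merge_self, off_of_ne h1 h2]; omega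
    · rw [merge_of_ne hc, off_of_ne h1 h2]
  constructor
  · intro x
    obtain ⟨c, hc, hd⟩ := hf.1 x
    by_cases h1 : c = u
    · subst h1
      refine ⟨w, by omega, ?_⟩
      have := hcu x (by rw [SimpleGraph.dist_comm]; exact hd)
      rw [SimpleGraph.dist_comm]
      omega
    · by_cases h2 : c = v
      · subst h2
        refine ⟨w, by omega, ?_⟩
        have := hcv x (by rw [SimpleGraph.dist_comm]; exact hd)
        rw [SimpleGraph.dist_comm]
        omega
      · have := hle c h1 h2
        exact ⟨c, by omega, by omega⟩
  · rcases hw with hw | ⟨z, hzu, hzv, hzw, hz, hd⟩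
    · left
      refine ⟨w, fun y hy => ?_⟩
      by_contra hyw
      rw [merge_of_ne hyw] at hy
      obtain ⟨h1, h2, h3⟩ := off_pos hy
      exact hyw (hw y h1 h2 h3)
    · right
      intro y hy
      by_cases hyw : y = w
      · subst hyw
        refine ⟨z, hzw, ?_, ?_⟩
        · rw [merge_of_ne hzw, off_of_ne hzu hzv]; exact hz
        · rw [merge_self, merge_of_ne hzw, off_of_ne hzu hzv]; omega
      · have hy' := hy
        rw [merge_of_ne hyw] at hy'
        obtain ⟨h1, h2, h3⟩ := off_pos hy'
        have hgy : merge f u v w y = f y := by rw [merge_of_ne hyw, off_of_ne h1 h2]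
        have htouch := hf.2.resolve_left (by
          rintro ⟨c, hc⟩
          exact huv ((hc u hu).trans (hc v hv).symm))
        obtain ⟨t, hty, ht, hdt⟩ := htouch y h3
        have aux : ∀ s, 0 < f s → G.dist y s ≤ f y + f s →
            (∀ x, G.dist s x ≤ f s → G.dist w x ≤ f u + f v) →
            G.dist y w ≤ merge f u v w y + merge f u v w w := by
          intro s hs hds hcs
          rw [hgy]
          rcases le_or_gt (G.dist s y) (f s) with h4 | h4
          · have := hcs y h4
            rw [SimpleGraph.dist_comm]
            omega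
          · obtain ⟨x, hx1, hx2⟩ := between hG s y h4.le
            have h5 := hcs x hx1.le
            have h6 := hG.dist_triangle (u := w) (v := x) (w := y)
            have e1 : G.dist y s = G.dist s y := SimpleGraph.dist_comm
            have e2 : G.dist y w = G.dist w y := SimpleGraph.dist_comm
            omega
        by_cases htu : t = u
        · subst htu
          exact ⟨w, fun h => hyw h.symm, by omega, aux t ht hdt hcu⟩
        · by_cases htv : t = v
          · subst htv
            exact ⟨w, fun h => hyw h.symm, by omega, aux t ht hdt hcv⟩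
          · have := hle t htu htv
            exact ⟨t, hty, by omega, by rw [hgy]; omega⟩

lemma exists_merge (hG : G.Connected) {f : V → ℕ} (hf : Valid G f) {u v : V} (huv : u ≠ v)
    (hu : 0 < f u) (hv : 0 < f v) (hlt : G.dist u v < f u + f v) :
    ∃ w, Valid G (merge f u v w) := by
  rcases Nat.lt_or_ge (G.dist u v + 1) (f u + f v) with hA | hB
  · -- the balls overlap by at least two
    obtain ⟨w, hw1, hw2⟩ := between hG u v (k := min (G.dist u v) (f v - 1)) (min_le_left _ _)
    have e1 : G.dist w u = G.dist u w := SimpleGraph.dist_comm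
    have hwu : G.dist w u + 1 ≤ f v := by omega
    have hwv : G.dist w v + 1 ≤ f u := by omega
    have hcu : ∀ x, G.dist u x ≤ f u → G.dist w x + 1 ≤ f u + f v := by
      intro x hx
      have := hG.dist_triangle (u := w) (v := u) (w := x)
      omega
    have hcv : ∀ x, G.dist v x ≤ f v → G.dist w x + 1 ≤ f u + f v := by
      intro x hx
      have := hG.dist_triangle (u := w) (v := v) (w := x)
      omega
    refine ⟨w, merge_valid hG hf huv hu hv (fun x hx => by have := hcu x hx; omega)
      (fun x hx => by have := hcv x hx; omega) ?_⟩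
    by_contra hno
    push Not at hno
    obtain ⟨⟨z, hzu, hzv, hz, hzw⟩, hiso⟩ := hno
    have h1 := hiso z hzu hzv hzw hz
    obtain ⟨x, hx1, -⟩ := between hG w z (k := f u + f v + off f u v w) (by omega)
    obtain ⟨c, hc, hd⟩ := hf.1 x
    have e2 : G.dist c x = G.dist x c := SimpleGraph.dist_comm
    by_cases h2 : c = u
    · subst h2
      have := hcu x (by omega)
      omega
    by_cases h3 : c = v
    · subst h3
      have := hcv x (by omega)
      omega
    by_cases h4 : c = w
    · subst h4
      rw [off_of_ne h2 h3] at hx1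
      omega
    · have := hiso c h2 h3 h4 hc
      have h5 := hG.dist_triangle (u := w) (v := x) (w := c)
      omega
  · -- the balls overlap by exactly one
    have hd : G.dist u v + 1 = f u + f v := by omega
    obtain ⟨w₁, ha1, ha2⟩ := between hG u v (k := f v - 1) (by omega)
    have ha3 : G.dist w₁ v = f u := by omega
    obtain ⟨w₂, hb1, hb2⟩ := between hG w₁ v (k := 1) (by omega)
    have hb3 : G.dist w₂ v + 1 = f u := by omega
    have e1 : G.dist w₁ u = G.dist u w₁ := SimpleGraph.dist_comm
    have e2 : G.dist w₂ w₁ = G.dist w₁ w₂ := SimpleGraph.dist_comm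
    have hb4 : G.dist w₂ u ≤ f v := by
      have := hG.dist_triangle (u := w₂) (v := w₁) (w := u)
      omega
    have hne : w₁ ≠ w₂ := by
      rintro rfl
      simp at hb1
    have c1u : ∀ x, G.dist u x ≤ f u → G.dist w₁ x + 1 ≤ f u + f v := by
      intro x hx
      have := hG.dist_triangle (u := w₁) (v := u) (w := x)
      omega
    have c1v : ∀ x, G.dist v x ≤ f v → G.dist w₁ x ≤ f u + f v := by
      intro x hx
      have := hG.dist_triangle (u := w₁) (v := v) (w := x)
      omega
    have c2u : ∀ x, G.dist u x ≤ f u → G.dist w₂ x ≤ f u + f v := by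
      intro x hx
      have := hG.dist_triangle (u := w₂) (v := u) (w := x)
      omega
    have c2v : ∀ x, G.dist v x ≤ f v → G.dist w₂ x + 1 ≤ f u + f v := by
      intro x hx
      have := hG.dist_triangle (u := w₂) (v := v) (w := x)
      omega
    by_cases hw1 : (∀ z, z ≠ u → z ≠ v → 0 < f z → z = w₁) ∨
        ∃ z, z ≠ u ∧ z ≠ v ∧ z ≠ w₁ ∧ 0 < f z ∧ G.dist w₁ z ≤ f u + f v + off f u v w₁ + f z
    · exact ⟨w₁, merge_valid hG hf huv hu hv (fun x hx => by have := c1u x hx; omega) c1v hw1⟩
    refine ⟨w₂, merge_valid hG hf huv hu hv c2u (fun x hx => by have := c2v x hx; omega) ?_⟩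
    by_contra hw2
    push Not at hw1 hw2
    obtain ⟨⟨z, hzu, hzv, hz, hzw⟩, hiso1⟩ := hw1
    obtain ⟨-, hiso2⟩ := hw2
    -- neither `w₁` nor `w₂` is a further centre
    have hn1 : ∀ c, c ≠ u → c ≠ v → 0 < f c → c ≠ w₁ := by
      rintro c h1 h2 h3 rfl
      have := hiso2 c h1 h2 hne h3
      omega
    have hn2 : ∀ c, c ≠ u → c ≠ v → 0 < f c → c ≠ w₂ := by
      rintro c h1 h2 h3 rfl
      have := hiso1 c h1 h2 hne.symm h3
      omega
    have h1 := hiso1 z hzu hzv hzw hz
    obtain ⟨x, hx1, -⟩ := between hG w₁ z (k := f u + f v + 1) (by omega)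
    obtain ⟨y, hy1, hy2⟩ := between hG w₁ x (k := f u + f v) (by omega)
    have hyx : G.dist y x = 1 := by omega
    -- `y` is dominated by `v`
    have hyv : G.dist v y ≤ f v := by
      obtain ⟨c, hc, hdc⟩ := hf.1 y
      have e3 : G.dist c y = G.dist y c := SimpleGraph.dist_comm
      by_cases h2 : c = u
      · subst h2
        have := c1u y (by omega)
        omega
      by_cases h3 : c = v
      · subst h3; omega
      · have h4 := hiso1 c h2 h3 (hn1 c h2 h3 hc) hc
        have h5 := hG.dist_triangle (u := w₁) (v := y) (w := c)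
        omega
    have hx2 : G.dist w₂ x ≤ f u + f v := by
      have h2 := c2v y hyv
      have h3 := hG.dist_triangle (u := w₂) (v := y) (w := x)
      omega
    obtain ⟨c, hc, hdc⟩ := hf.1 x
    have e3 : G.dist c x = G.dist x c := SimpleGraph.dist_comm
    by_cases h2 : c = u
    · subst h2
      have := c1u x (by omega)
      omega
    by_cases h3 : c = v
    · subst h3
      have := c1v x (by omega)
      omega
    · have h4 := hiso2 c h2 h3 (hn2 c h2 h3 hc) hc
      have h5 := hG.dist_triangle (u := w₂) (v := x) (w := c)
      omega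

/-- Every valid broadcast can be replaced by a valid separated one of at most the same cost. -/
theorem exists_sep (hG : G.Connected) (f : V → ℕ) (hf : Valid G f) :
    ∃ g, Valid G g ∧ Sep G g ∧ cost g ≤ cost f := by
  classical
  induction hk : (univ.filter fun x => 0 < f x).card using Nat.strong_induction_on generalizing f
    with
  | _ k ih =>
    by_cases hs : Sep G f
    · exact ⟨f, hf, hs, le_refl _⟩
    · unfold Sep at hs
      push Not at hs
      obtain ⟨u, v, huv, hu, hv, hlt⟩ := hs
      obtain ⟨w, hw⟩ := exists_merge hG hf huv hu hv hlt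
      have hcard := centers_merge huv hu hv w
      obtain ⟨g, hg1, hg2, hg3⟩ := ih _ (by rw [← hk]; convert hcard) (merge f u v w) hw rfl
      exact ⟨g, hg1, hg2, hg3.trans (cost_merge f huv w).le⟩

end Pool.Agent.H63.Bn
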