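import Pool.Agent.H63.Bn.Merge

/-! A valid separated broadcast stays valid on a suitable spanning tree. -/

namespace Pool.Agent.H63.Bn

open Finset

variable {V : Type*} [Fintype V] {G : SimpleGraph V}

/-- The depth of the vertex `x` inside the balls. -/
noncomputable def dep (G : SimpleGraph V) (f : V → ℕ) (x : V) : ℕ :=
  univ.sup fun v => f v - G.dist x v

lemma le_dep (f : V → ℕ) (x v : V) : f v ≤ dep G f x + G.dist x v := by
  have : f v - G.dist x v ≤ dep G f x :=
    Finset.le_sup (f := fun v => f v - G.dist x v) (Finset.mem_univ v)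
  omega

lemma exists_dep (hG : G.Connected) {f : V → ℕ} (hf : Valid G f) (x : V) :
    ∃ v, 0 < f v ∧ f v = dep G f x + G.dist x v := by
  have hne : Nonempty V := hG.nonempty
  rcases Nat.eq_zero_or_pos (dep G f x) with h0 | h0
  · obtain ⟨v, hv, hd⟩ := hf.1 x
    have := le_dep (G := G) f x v
    exact ⟨v, hv, by omega⟩
  · obtain ⟨v, -, hv⟩ := Finset.exists_mem_eq_sup univ univ_nonempty fun v => f v - G.dist x v
    change dep G f x = _ at hv
    exact ⟨v, by omega, by omega⟩

lemma dep_le_bound (f : V → ℕ) (x : V) : dep G f x ≤ ∑ v, f v := by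
  refine Finset.sup_le fun v _ => (Nat.sub_le _ _).trans ?_
  exact Finset.single_le_sum (f := f) (fun _ _ => Nat.zero_le _) (Finset.mem_univ v)

lemma exists_parent (hG : G.Connected) {f : V → ℕ} (hf : Valid G f) {x : V} (hx : f x = 0) :
    ∃ p, G.Adj x p ∧ dep G f p = dep G f x + 1 := by
  obtain ⟨v, hv, he⟩ := exists_dep hG hf x
  have hxv : x ≠ v := by rintro rfl; omega
  have h1 : 0 < G.dist x v := hG.pos_dist_of_ne hxv
  obtain ⟨p, hp1, hp2⟩ := between hG x v (k := 1) h1
  refine ⟨p, SimpleGraph.dist_eq_one_iff_adj.1 hp1, le_antisymm ?_ ?_⟩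
  · obtain ⟨w, hw, hew⟩ := exists_dep hG hf p
    have h2 := le_dep (G := G) f x w
    have h3 := hG.dist_triangle (u := x) (v := p) (w := w)
    omega
  · have h2 := le_dep (G := G) f p v
    omega

open Classical in
/-- The parent of a vertex that does not broadcast. -/
noncomputable def par (hG : G.Connected) {f : V → ℕ} (hf : Valid G f) (x : V) : V :=
  if h : f x = 0 then (exists_parent hG hf h).choose else x

lemma par_adj (hG : G.Connected) {f : V → ℕ} (hf : Valid G f) {x : V} (hx : f x = 0) :
    G.Adj x (par hG hf x) := by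
  unfold par
  rw [dif_pos hx]
  exact (exists_parent hG hf hx).choose_spec.1

lemma par_dep (hG : G.Connected) {f : V → ℕ} (hf : Valid G f) {x : V} (hx : f x = 0) :
    dep G f (par hG hf x) = dep G f x + 1 := by
  unfold par
  rw [dif_pos hx]
  exact (exists_parent hG hf hx).choose_spec.2

lemma par_center (hG : G.Connected) {f : V → ℕ} (hf : Valid G f) {x : V} (hx : 0 < f x) :
    par hG hf x = x := by
  unfold par
  rw [dif_neg (by omega)]

/-- The forest of the parent edges. -/
def forest (hG : G.Connected) {f : V → ℕ} (hf : Valid G f) : SimpleGraph V where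
  Adj x y := (f x = 0 ∧ par hG hf x = y) ∨ (f y = 0 ∧ par hG hf y = x)
  symm := ⟨fun _ _ h => Or.symm h⟩
  loopless := ⟨fun x h => by
    rcases h with ⟨h1, h2⟩ | ⟨h1, h2⟩
    · exact (par_adj hG hf h1).ne h2.symm
    · exact (par_adj hG hf h1).ne h2.symm⟩

lemma forest_adj (hG : G.Connected) {f : V → ℕ} (hf : Valid G f) {x y : V} :
    (forest hG hf).Adj x y ↔ (f x = 0 ∧ par hG hf x = y) ∨ (f y = 0 ∧ par hG hf y = x) :=
  Iff.rfl

lemma forest_le (hG : G.Connected) {f : V → ℕ} (hf : Valid G f) : forest hG hf ≤ G := by
  intro x y h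
  rw [forest_adj] at h
  rcases h with ⟨h1, h2⟩ | ⟨h1, h2⟩
  · rw [← h2]; exact par_adj hG hf h1
  · rw [← h2]; exact (par_adj hG hf h1).symm

lemma forest_acyclic (hG : G.Connected) {f : V → ℕ} (hf : Valid G f) :
    (forest hG hf).IsAcyclic := by
  classical
  intro u c hc
  -- a vertex of minimal depth on the cycle
  obtain ⟨x, hx, hmin⟩ := (c.support.toFinset).exists_min_image (dep G f)
    ⟨u, by simp⟩
  simp only [List.mem_toFinset] at hx hmin
  have hcyc : (c.rotate x hx).IsCycle := (SimpleGraph.Walk.isCycle_rotate hx).2 hc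
  have hup : ∀ y, (forest hG hf).Adj x y → y ∈ (c.rotate x hx).support → par hG hf x = y := by
    intro y hy hyc
    rw [forest_adj] at hy
    rcases hy with ⟨_, h2⟩ | ⟨h1, h2⟩
    · exact h2
    · have h3 := par_dep hG hf h1
      rw [h2] at h3
      have h4 := hmin y ((c.mem_support_rotate_iff x hx).1 hyc)
      omega
  have hnn : ¬ (c.rotate x hx).Nil := hcyc.not_nil
  have h1 := hup _ ((c.rotate x hx).adj_snd hnn)
    (List.mem_of_mem_tail (SimpleGraph.Walk.snd_mem_tail_support hnn))
  have h2 := hup _ ((c.rotate x hx).adj_penultimate hnn).symm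
    (List.mem_of_mem_dropLast (SimpleGraph.Walk.penultimate_mem_dropLast_support hnn))
  exact hcyc.snd_ne_penultimate (h1.symm.trans h2)

/-- The root of the tree of the forest that contains `x`. -/
noncomputable def root (hG : G.Connected) {f : V → ℕ} (hf : Valid G f) (x : V) : V :=
  (par hG hf)^[∑ v, f v] x

lemma root_center (hG : G.Connected) {f : V → ℕ} (hf : Valid G f) {x : V} (hx : 0 < f x) :
    root hG hf x = x := by
  unfold root
  exact Function.iterate_fixed (par_center hG hf hx) _

lemma iterate_spec (hG : G.Connected) {f : V → ℕ} (hf : Valid G f) (x : V) (k : ℕ) :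
    0 < f ((par hG hf)^[k] x) ∨ dep G f ((par hG hf)^[k] x) = dep G f x + k := by
  induction k with
  | zero => right; simp
  | succ k ih =>
    rw [Function.iterate_succ_apply']
    rcases ih with ih | ih
    · left
      rw [par_center hG hf ih]
      exact ih
    · rcases Nat.eq_zero_or_pos (f ((par hG hf)^[k] x)) with h0 | h0
      · right
        rw [par_dep hG hf h0, ih]
        rfl
      · left
        rw [par_center hG hf h0]
        exact h0

lemma root_pos (hG : G.Connected) {f : V → ℕ} (hf : Valid G f) (x : V) :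
    0 < f (root hG hf x) := by
  rcases iterate_spec hG hf x (∑ v, f v) with h | h
  · exact h
  · have h1 := dep_le_bound (G := G) f ((par hG hf)^[∑ v, f v] x)
    -- the depth of the root is the total sum, which forces one ball only
    obtain ⟨v, hv, he⟩ := exists_dep hG hf ((par hG hf)^[∑ v, f v] x)
    have h2 : f v ≤ ∑ v, f v :=
      Finset.single_le_sum (f := f) (fun _ _ => Nat.zero_le _) (Finset.mem_univ v)
    have h3 : G.dist ((par hG hf)^[∑ v, f v] x) v = 0 := by omega
    have h4 : (par hG hf)^[∑ v, f v] x = v := (hG.dist_eq_zero_iff).1 h3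
    unfold root
    rw [h4]
    exact hv

lemma root_par (hG : G.Connected) {f : V → ℕ} (hf : Valid G f) (x : V) :
    root hG hf (par hG hf x) = root hG hf x := by
  unfold root
  rw [← Function.iterate_succ_apply, Function.iterate_succ_apply']
  exact par_center hG hf (root_pos hG hf x)

lemma root_adj (hG : G.Connected) {f : V → ℕ} (hf : Valid G f) {x y : V}
    (h : (forest hG hf).Adj x y) : root hG hf x = root hG hf y := by
  rw [forest_adj] at h
  rcases h with ⟨_, h2⟩ | ⟨_, h2⟩
  · rw [← h2, root_par]
  · rw [← h2, root_par]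

/-- Every vertex is joined to its root by a walk inside the forest, of the right length. -/
lemma exists_walk (hG : G.Connected) {f : V → ℕ} (hf : Valid G f) (hs : Sep G f) (x : V) :
    ∃ p : (forest hG hf).Walk x (root hG hf x), p.length + dep G f x = f (root hG hf x) := by
  have hself : ∀ z, 0 < f z → dep G f z = f z := by
    intro z hz
    obtain ⟨v, hv, he⟩ := exists_dep hG hf z
    by_cases hzv : z = v
    · subst hzv; simpa using he.symm
    · have := hs z v hzv hz hv
      have h1 := le_dep (G := G) f z z
      simp at h1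
      omega
  have key : ∀ k x, (∑ v, f v) - dep G f x ≤ k →
      ∃ p : (forest hG hf).Walk x (root hG hf x), p.length + dep G f x = f (root hG hf x) := by
    intro k
    induction k with
    | zero =>
      intro x hx
      rcases Nat.eq_zero_or_pos (f x) with h0 | h0
      · have h1 := par_dep hG hf h0
        have h2 := dep_le_bound (G := G) f (par hG hf x)
        omega
      · rw [root_center hG hf h0]
        exact ⟨SimpleGraph.Walk.nil, by simpa using hself x h0⟩
    | succ k ih =>
      intro x hx
      rcases Nat.eq_zero_or_pos (f x) with h0 | h0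
      · have h1 := par_dep hG hf h0
        have hih := ih (par hG hf x) (by omega)
        rw [root_par] at hih
        obtain ⟨p, hp⟩ := hih
        have hadj : (forest hG hf).Adj x (par hG hf x) := Or.inl ⟨h0, rfl⟩
        refine ⟨SimpleGraph.Walk.cons hadj p, ?_⟩
        rw [SimpleGraph.Walk.length_cons]
        omega
      · rw [root_center hG hf h0]
        exact ⟨SimpleGraph.Walk.nil, by simpa using hself x h0⟩
  exact key _ x le_rfl

/-- The good edges: edges of the graph between two different trees of the forest such that the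
depths of the two ends add up to at least one. -/
def good (hG : G.Connected) {f : V → ℕ} (hf : Valid G f) : SimpleGraph V where
  Adj x y := G.Adj x y ∧ root hG hf x ≠ root hG hf y ∧ 1 ≤ dep G f x + dep G f y
  symm := ⟨fun _ _ h => ⟨h.1.symm, h.2.1.symm, by rw [add_comm]; exact h.2.2⟩⟩
  loopless := ⟨fun _ h => h.1.ne rfl⟩

lemma good_adj (hG : G.Connected) {f : V → ℕ} (hf : Valid G f) {x y : V} :
    (good hG hf).Adj x y ↔
      G.Adj x y ∧ root hG hf x ≠ root hG hf y ∧ 1 ≤ dep G f x + dep G f y := Iff.rfl

/-- Interior vertices of a ball belong to the tree of its centre. -/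
lemma root_interior (hG : G.Connected) {f : V → ℕ} (hf : Valid G f) (hs : Sep G f) {v y : V}
    (hv : 0 < f v) (hy : G.dist y v < f v) : root hG hf y = v := by
  by_contra hne
  obtain ⟨p, hp⟩ := exists_walk hG hf hs y
  have h1 : G.dist y (root hG hf y) ≤ p.length := by
    have := SimpleGraph.dist_le (p.mapLe (forest_le hG hf))
    rwa [SimpleGraph.Walk.length_mapLe] at this
  have h2 := le_dep (G := G) f y v
  have h3 := hs v (root hG hf y) (fun h => hne h.symm) hv (root_pos hG hf y)
  have h4 := hG.dist_triangle (u := v) (v := y) (w := root hG hf y)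
  have e1 : G.dist v y = G.dist y v := SimpleGraph.dist_comm
  omega

/-- If there are at least two balls, every tree of the forest is left by a good edge. -/
lemma exists_good (hG : G.Connected) {f : V → ℕ} (hf : Valid G f) (hs : Sep G f)
    (htouch : ∀ v, 0 < f v → ∃ u, u ≠ v ∧ 0 < f u ∧ G.dist v u ≤ f v + f u) {v : V}
    (hv : 0 < f v) :
    ∃ a b, (good hG hf).Adj a b ∧ root hG hf a = v := by
  obtain ⟨u, huv, hu, hd⟩ := htouch v hv
  have hd' : G.dist v u = f v + f u := le_antisymm hd (hs v u huv.symm hv hu)
  obtain ⟨q, hq1, hq2⟩ := between hG v u (k := f v - 1) (by omega)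
  obtain ⟨x, hx1, hx2⟩ := between hG q u (k := 1) (by omega)
  obtain ⟨q', hq'1, hq'2⟩ := between hG x u (k := 1) (by omega)
  have e1 : G.dist q v = G.dist v q := SimpleGraph.dist_comm
  have hrq : root hG hf q = v := root_interior hG hf hs hv (by omega)
  have hrq' : root hG hf q' = u := root_interior hG hf hs hu (by omega)
  have hdq := le_dep (G := G) f q v
  have hdq' := le_dep (G := G) f q' u
  by_cases hx : root hG hf x = v
  · refine ⟨x, q', (good_adj hG hf).2 ⟨SimpleGraph.dist_eq_one_iff_adj.1 hq'1, ?_, by omega⟩, hx⟩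
    rw [hx, hrq']
    exact huv.symm
  · refine ⟨q, x, (good_adj hG hf).2 ⟨SimpleGraph.dist_eq_one_iff_adj.1 hx1, ?_, by omega⟩, hrq⟩
    rw [hrq]
    exact fun h => hx h.symm

/-- A valid separated broadcast stays valid on a suitable spanning tree. -/
theorem exists_tree (hG : G.Connected) {f : V → ℕ} (hf : Valid G f) (hs : Sep G f) :
    ∃ T : SimpleGraph V, T ≤ G ∧ T.IsTree ∧ Valid T f := by
  have hH : forest hG hf ⊔ good hG hf ≤ G :=
    sup_le (forest_le hG hf) fun x y h => h.1
  obtain ⟨F, hF1, hF2, hF3, hF4⟩ :=
    (forest hG hf ⊔ good hG hf).exists_isAcyclic_reachable_eq_le_of_le_of_isAcyclic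
      (H := forest hG hf) le_sup_left (forest_acyclic hG hf)
  obtain ⟨T, hT1, hT2, hT3⟩ := hG.exists_isTree_le_of_le_of_isAcyclic (hF2.trans hH) hF3
  have hwalk : ∀ x, T.dist x (root hG hf x) + dep G f x ≤ f (root hG hf x) := by
    intro x
    obtain ⟨p, hp⟩ := exists_walk hG hf hs x
    have h1 : T.dist x (root hG hf x) ≤ p.length := by
      have := SimpleGraph.dist_le (p.mapLe (hF1.trans hT1))
      rwa [SimpleGraph.Walk.length_mapLe] at this
    omega
  refine ⟨T, hT2, hT3, fun x => ⟨root hG hf x, root_pos hG hf x, ?_⟩, ?_⟩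
  · have := hwalk x
    omega
  · rcases hf.2 with h | htouch
    · exact Or.inl h
    · right
      intro v hv
      obtain ⟨a, b, hab, ha⟩ := exists_good hG hf hs htouch hv
      obtain ⟨p, -⟩ := exists_walk hG hf hs a
      obtain ⟨p', -⟩ := exists_walk hG hf hs b
      rw [ha] at p
      have hreach : (forest hG hf ⊔ good hG hf).Reachable v (root hG hf b) := by
        have h1 : (forest hG hf ⊔ good hG hf).Reachable a v := ⟨p.mapLe le_sup_left⟩
        have h2 : (forest hG hf ⊔ good hG hf).Reachable b (root hG hf b) :=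
          ⟨p'.mapLe le_sup_left⟩
        have h3 : (forest hG hf ⊔ good hG hf).Adj a b := Or.inr hab
        exact h1.symm.trans (h3.reachable.trans h2)
      rw [← hF4] at hreach
      obtain ⟨q⟩ := hreach
      obtain ⟨d, -, hd1, hd2⟩ := q.exists_boundary_dart {y | root hG hf y = v}
        (by simpa using root_center hG hf hv) (by
          simp only [Set.mem_ofPred_eq]
          rw [root_center hG hf (root_pos hG hf b), ← ha]
          exact fun h => hab.2.1 h.symm)
      simp only [Set.mem_ofPred_eq] at hd1 hd2
      have hadj := hF2 d.adj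
      have hgood : (good hG hf).Adj d.fst d.snd := by
        rcases hadj with h | h
        · exact absurd ((root_adj hG hf h).symm.trans hd1) hd2
        · exact h
      refine ⟨root hG hf d.snd, hd2, root_pos hG hf _, ?_⟩
      have h1 := hwalk d.fst
      have h2 := hwalk d.snd
      rw [hd1] at h1
      have h3 : T.dist d.fst d.snd = 1 := SimpleGraph.dist_eq_one_iff_adj.2 (hT1 d.adj)
      have h4 := hT3.connected.dist_triangle (u := v) (v := d.fst) (w := root hG hf d.snd)
      have h5 := hT3.connected.dist_triangle (u := d.fst) (v := d.snd)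
        (w := root hG hf d.snd)
      have e1 : T.dist v d.fst = T.dist d.fst v := SimpleGraph.dist_comm
      have h6 := hgood.2.2
      omega

end Pool.Agent.H63.Bn
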